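import Pool.Agent.Lib.P08e6f5.M5

set_option autoImplicit false

namespace Pool.Agent.Results.MP_08e6f5_lc.EqualExtensions

open Pool.Agent.Lib.P08e6f5

/-- There are a countable transitive model `M` of ZFC, a countable collection `C` of subsets of
`M` such that `(M, C)` satisfies Gödel-Bernays class theory, and notions of class forcing `P` and
`Q` for `(M, C)` with the same generic extensions such that `P` satisfies the forcing theorem and
`Q` does not. -/
theorem result : ∃ (M : ZFSet.{0}) (C : Set (Set ZFSet.{0})), IsCTM M ∧ C.Countable ∧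
    IsGB M C ∧ ∃ P Q : Poset, IsNotion C P ∧ IsNotion C Q ∧
      {N | ∃ G, IsGeneric C P G ∧ N = genExt M P G} =
        {N | ∃ H, IsGeneric C Q H ∧ N = genExt M Q H} ∧
      ForcingTheorem M C P ∧ ¬ ForcingTheorem M C Q := by
  obtain ⟨M, C, Bb, h⟩ := exists_ctx
  obtain ⟨feq, hfeq⟩ := h.feq
  exact ⟨M, C, h.ctm, h.cnt, h.std.gb, _, _, h.frP.nt, h.frQ.nt, ext_eq h,
    forcingTheorem_of h.std h.cnt h.frP.nt hfeq, not_FT h⟩

end Pool.Agent.Results.MP_08e6f5_lc.EqualExtensions
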